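import Pool.Agent.Helper73.M3.Spec

/-!
# Part H1 of the sharp Mahler inequality in dimension three: the real inequality, `δ ≤ 2/3`
-/

set_option autoImplicit false

namespace Helper59.M3H1

/-- the Taylor polynomial `P` -/
noncomputable def Pp (D : ℝ) : ℝ := 1 - 3 * D + 8 / 3 * D ^ 2 - 8 / 27 * D ^ 3 - 3 / 8 * D ^ 4

noncomputable def Qp (b : ℝ) : ℝ := 3 / 32 * b ^ 2 + b ^ 3 / 512 + b ^ 4 / 800

lemma aux_P {D : ℝ} (h0 : 0 ≤ D) (h1 : D ≤ 1) : Pp D ≤ 27 * (1 - D) ^ 4 / (3 - D) ^ 3 := by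
  have h3 : 0 < (3 - D) ^ 3 := by
    have : 0 < 3 - D := by linarith
    positivity
  rw [le_div_iff₀ h3]
  unfold Pp
  obtain ⟨e, he⟩ : ∃ e, e = 1 - D := ⟨_, rfl⟩
  have he0 : 0 ≤ e := by rw [he]; linarith
  have key : 27 * (1 - D) ^ 4 - (1 - 3 * D + 8 / 3 * D ^ 2 - 8 / 27 * D ^ 3 - 3 / 8 * D ^ 4) * (3 - D) ^ 3
      = D ^ 4 * (17 / 8 - 115 / 24 * D + 665 / 216 * D ^ 2 - 3 / 8 * D ^ 3) := by ring
  have h5 : 0 ≤ 17 / 8 - 115 / 24 * D + 665 / 216 * D ^ 2 - 3 / 8 * D ^ 3 := by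
    nlinarith [sq_nonneg (D - 3 / 4), mul_nonneg h0 (sq_nonneg (D - 3 / 4)), sq_nonneg (D - 1), mul_nonneg h0 he0, mul_nonneg he0 (sq_nonneg (D - 3/4))]
  have : 0 ≤ D ^ 4 * (17 / 8 - 115 / 24 * D + 665 / 216 * D ^ 2 - 3 / 8 * D ^ 3) := by positivity
  linarith

/-- near, first bound -/
lemma near_one {D w : ℝ} (h0 : 0 ≤ D) (h1 : D ≤ w) (h2 : w ≤ 1 / 2) :
    Pp D ≤ (1 - D) ^ 4 + (1 - w) ^ 4 * D - 9 / 8 * (w - D) ^ 2 + 3 / 2 * w ^ 2 := by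
  unfold Pp
  have hw : 0 ≤ w := h0.trans h1
  have key : (1 - D) ^ 4 + (1 - w) ^ 4 * D - 9 / 8 * (w - D) ^ 2 + 3 / 2 * w ^ 2 -
      (1 - 3 * D + 8 / 3 * D ^ 2 - 8 / 27 * D ^ 3 - 3 / 8 * D ^ 4) =
      (3 / 8 * w ^ 2 - 7 / 4 * (w * D) + 53 / 24 * D ^ 2) +
      D * (w ^ 2 * (6 - 4 * w + w ^ 2) - 100 / 27 * D ^ 2) + 11 / 8 * D ^ 4 := by ring
  have t1 : 0 ≤ 3 / 8 * w ^ 2 - 7 / 4 * (w * D) + 53 / 24 * D ^ 2 := by
    nlinarith [sq_nonneg (w - 7 / 3 * D), sq_nonneg D]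
  have t2 : 0 ≤ w ^ 2 * (6 - 4 * w + w ^ 2) - 100 / 27 * D ^ 2 := by
    have a1 : D ^ 2 ≤ w ^ 2 := pow_le_pow_left₀ h0 h1 2
    have a2 : (4 : ℝ) ≤ 6 - 4 * w + w ^ 2 := by nlinarith
    nlinarith [mul_nonneg (sq_nonneg w) (sub_nonneg.2 a2)]
  have t3 := mul_nonneg h0 t2
  have t4 : 0 ≤ 11 / 8 * D ^ 4 := by positivity
  linarith

/-- near, second bound -/
lemma near_two {D w : ℝ} (h0 : 0 ≤ D) (h1 : D ≤ w) (h2 : w ≤ 1 / 2) :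
    Pp D ≤ (1 - D) ^ 4 + (1 - w) ^ 4 * D - 9 / 8 * (w - D) ^ 2 + (9 / 8 * w ^ 2 + 3 / 1000) := by
  unfold Pp
  have hw : 0 ≤ w := h0.trans h1
  have hD2 : D ≤ 1 / 2 := h1.trans h2
  have key : (1 - D) ^ 4 + (1 - w) ^ 4 * D - 9 / 8 * (w - D) ^ 2 + (9 / 8 * w ^ 2 + 3 / 1000) -
      (1 - 3 * D + 8 / 3 * D ^ 2 - 8 / 27 * D ^ 3 - 3 / 8 * D ^ 4) =
      3 / 1000 - D * (7 / 4 * w - 6 * w ^ 2 + 4 * w ^ 3 - w ^ 4) + 53 / 24 * D ^ 2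
        - 100 / 27 * D ^ 3 + 11 / 8 * D ^ 4 := by ring
  have t1 : 7 / 4 * w - 6 * w ^ 2 + 4 * w ^ 3 - w ^ 4 ≤ 29 / 200 := by
    nlinarith [sq_nonneg (w - 7 / 40), mul_nonneg hw (sq_nonneg (w - 7 / 40)), sq_nonneg (w * (w - 7 / 40)),
      mul_nonneg (sub_nonneg.2 h2) (sq_nonneg (w - 7 / 40))]
  have t2 : D * (7 / 4 * w - 6 * w ^ 2 + 4 * w ^ 3 - w ^ 4) ≤ D * (29 / 200) :=
    mul_le_mul_of_nonneg_left t1 h0
  have t3 : 0 ≤ 3 / 1000 - D * (29 / 200) + 53 / 24 * D ^ 2 - 100 / 27 * D ^ 3 + 11 / 8 * D ^ 4 := by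
    nlinarith [sq_nonneg (D - 9 / 250), mul_nonneg h0 (sq_nonneg (D - 9 / 250)), sq_nonneg (D * (D - 9 / 250)),
      mul_nonneg (sub_nonneg.2 hD2) (sq_nonneg (D - 9 / 250)), mul_nonneg h0 (sub_nonneg.2 hD2)]
  linarith

lemma far_one {D : ℝ} (h0 : 0 ≤ D) (h1 : D ≤ 1) :
    Pp D ≤ (1 - D) ^ 4 + (1 - D) ^ 4 * D + 2 / 3 * D ^ 2 := by
  unfold Pp
  have key : (1 - D) ^ 4 + (1 - D) ^ 4 * D + 2 / 3 * D ^ 2 -
      (1 - 3 * D + 8 / 3 * D ^ 2 - 8 / 27 * D ^ 3 - 3 / 8 * D ^ 4) =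
      D ^ 3 * (62 / 27 - 3 * D + 3 / 8 * D + D ^ 2) := by ring
  have : 0 ≤ 62 / 27 - 3 * D + 3 / 8 * D + D ^ 2 := by nlinarith [sq_nonneg (D - 21 / 16)]
  have h3 : 0 ≤ D ^ 3 * (62 / 27 - 3 * D + 3 / 8 * D + D ^ 2) := by positivity
  linarith

lemma far_two {D : ℝ} (h0 : 0 ≤ D) (h1 : D ≤ 1) :
    Pp D ≤ (1 - D) ^ 4 + (1 - D) ^ 4 * D + (1 / 2 * D ^ 2 + 3 / 1000) := by
  unfold Pp
  have key : (1 - D) ^ 4 + (1 - D) ^ 4 * D + (1 / 2 * D ^ 2 + 3 / 1000) -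
      (1 - 3 * D + 8 / 3 * D ^ 2 - 8 / 27 * D ^ 3 - 3 / 8 * D ^ 4) =
      3 / 1000 - 1 / 6 * D ^ 2 + 62 / 27 * D ^ 3 - (21 / 8) * D ^ 4 + D ^ 5 := by ring
  have h2 : 0 ≤ 3 / 1000 - 1 / 6 * D ^ 2 + 62 / 27 * D ^ 3 - (21 / 8) * D ^ 4 + D ^ 5 := by
    have a1 : 0 ≤ 62 / 27 - (21 / 8) * D + D ^ 2 := by nlinarith [sq_nonneg (D - 21 / 16)]
    have a2 : (1 : ℝ) / 2 ≤ 62 / 27 - (21 / 8) * D + D ^ 2 := by nlinarith [sq_nonneg (D - 21 / 16)]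
    have a3 : D ^ 3 * (1 / 2) ≤ D ^ 3 * (62 / 27 - (21 / 8) * D + D ^ 2) :=
      mul_le_mul_of_nonneg_left a2 (by positivity)
    nlinarith [sq_nonneg (D - 1/5), mul_nonneg h0 (sq_nonneg (D - 1/5))]
  linarith

lemma Q_ineq {D b : ℝ} (h0 : 0 ≤ D) (h1 : D ≤ 1) (hb : 0 ≤ b) (hb2 : b ≤ 12 / 5) :
    1 - Qp b ≤ Pp D + (3 - b) * D := by
  unfold Qp Pp
  obtain ⟨c, hc⟩ : ∃ c, b = 16 / 3 * c := ⟨3 / 16 * b, by ring⟩
  have hc0 : 0 ≤ c := by linarith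
  have hc1 : c ≤ 9 / 20 := by linarith
  subst hc
  rcases le_total D c with h | h
  · obtain ⟨e, he⟩ : ∃ e, c = D + e := ⟨c - D, by ring⟩
    have he0 : 0 ≤ e := by linarith
    subst he
    have key : 1 - 3 * D + 8 / 3 * D ^ 2 - 8 / 27 * D ^ 3 - 3 / 8 * D ^ 4 + (3 - 16 / 3 * (D + e)) * D
      - (1 - (3 / 32 * (16 / 3 * (D + e)) ^ 2 + (16 / 3 * (D + e)) ^ 3 / 512 + (16 / 3 * (D + e)) ^ 4 / 800))
      = 8 / 3 * e ^ 2 + 8 / 27 * (3 * D ^ 2 * e + 3 * D * e ^ 2 + e ^ 3) +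
        3 / 8 * (4 * D ^ 3 * e + 6 * D ^ 2 * e ^ 2 + 4 * D * e ^ 3 + e ^ 4) +
        (65536 / 64800 - 3 / 8) * (D + e) ^ 4 := by ring
    have : 0 ≤ 8 / 3 * e ^ 2 + 8 / 27 * (3 * D ^ 2 * e + 3 * D * e ^ 2 + e ^ 3) +
        3 / 8 * (4 * D ^ 3 * e + 6 * D ^ 2 * e ^ 2 + 4 * D * e ^ 3 + e ^ 4) +
        (65536 / 64800 - 3 / 8) * (D + e) ^ 4 := by
      have : (0 : ℝ) ≤ 65536 / 64800 - 3 / 8 := by norm_num
      positivity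
    linarith
  · obtain ⟨e, he⟩ : ∃ e, D = c + e := ⟨D - c, by ring⟩
    have he0 : 0 ≤ e := by linarith
    have he1 : e ≤ 1 - c := by linarith
    subst he
    have key : 1 - 3 * (c + e) + 8 / 3 * (c + e) ^ 2 - 8 / 27 * (c + e) ^ 3 - 3 / 8 * (c + e) ^ 4 +
        (3 - 16 / 3 * c) * (c + e)
      - (1 - (3 / 32 * (16 / 3 * c) ^ 2 + (16 / 3 * c) ^ 3 / 512 + (16 / 3 * c) ^ 4 / 800))
      = e ^ 2 * (8 / 3 - 8 / 9 * c - 9 / 4 * c ^ 2 - 8 / 27 * e - 3 / 2 * (c * e) - 3 / 8 * e ^ 2)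
        - e * c ^ 2 * (8 / 9 + 3 / 2 * c) + (65536 / 64800 - 3 / 8) * c ^ 4 := by ring
    have hA : (23 / 20 : ℝ) ≤ 8 / 3 - 8 / 9 * c - 9 / 4 * c ^ 2 - 8 / 27 * e - 3 / 2 * (c * e) - 3 / 8 * e ^ 2 := by
      nlinarith [mul_nonneg hc0 he0, mul_nonneg hc0 (sub_nonneg.2 he1), mul_nonneg he0 (sub_nonneg.2 he1),
        mul_nonneg hc0 (sub_nonneg.2 hc1)]
    have hB : 8 / 9 + 3 / 2 * c ≤ (157 / 100 : ℝ) := by linarith
    have h2 : e ^ 2 * (23 / 20) ≤ e ^ 2 * (8 / 3 - 8 / 9 * c - 9 / 4 * c ^ 2 - 8 / 27 * e - 3 / 2 * (c * e) - 3 / 8 * e ^ 2) :=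
      mul_le_mul_of_nonneg_left hA (sq_nonneg e)
    have h3 : e * c ^ 2 * (8 / 9 + 3 / 2 * c) ≤ e * c ^ 2 * (157 / 100) :=
      mul_le_mul_of_nonneg_left hB (by positivity)
    nlinarith [sq_nonneg (e - 157 / 230 * c ^ 2), sq_nonneg (c ^ 2)]


/-- the one-variable function `a(d)` -/
noncomputable def aa (d : ℝ) : ℝ := 7 / 12 * d + d ^ 2

lemma poly_T {d : ℝ} (h0 : 0 ≤ d) (h1 : d ≤ 2 / 3) :
    16 * (1 - d) / (4 - d) + (1 / 30 * d ^ 2 + 12 / 25 * d ^ 3 + 1 / 5 * d ^ 4) ≤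
      4 - Qp (aa d + (3 - aa d) * d) - 3 * Qp (aa d) - (3 - aa d) * d := by
  have h4 : 0 < 4 - d := by linarith
  have e0 : 0 ≤ 2 / 3 - d := by linarith
  have hT : 0 ≤ 59049 / 327680 * d ^ 0 * (2 / 3 - d) ^ 11 +
      101960127 / 26214400 * d ^ 1 * (2 / 3 - d) ^ 10 +
      2640377979 / 104857600 * d ^ 2 * (2 / 3 - d) ^ 9 +
      18303781491 / 209715200 * d ^ 3 * (2 / 3 - d) ^ 8 +
      21678529257 / 104857600 * d ^ 4 * (2 / 3 - d) ^ 7 +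
      40464355239 / 104857600 * d ^ 5 * (2 / 3 - d) ^ 6 +
      12212887659 / 20971520 * d ^ 6 * (2 / 3 - d) ^ 5 +
      34878281311 / 52428800 * d ^ 7 * (2 / 3 - d) ^ 4 +
      55488279387 / 104857600 * d ^ 8 * (2 / 3 - d) ^ 3 +
      28338783309 / 104857600 * d ^ 9 * (2 / 3 - d) ^ 2 +
      4137188373 / 52428800 * d ^ 10 * (2 / 3 - d) ^ 1 +
      418238397 / 41943040 * d ^ 11 * (2 / 3 - d) ^ 0 := by
    positivity
  have key : (4 - Qp (aa d + (3 - aa d) * d) - 3 * Qp (aa d) - (3 - aa d) * d) * (4 - d)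
      - 16 * (1 - d) - (1 / 30 * d ^ 2 + 12 / 25 * d ^ 3 + 1 / 5 * d ^ 4) * (4 - d) =
      d ^ 2 * (59049 / 327680 * d ^ 0 * (2 / 3 - d) ^ 11 +
      101960127 / 26214400 * d ^ 1 * (2 / 3 - d) ^ 10 +
      2640377979 / 104857600 * d ^ 2 * (2 / 3 - d) ^ 9 +
      18303781491 / 209715200 * d ^ 3 * (2 / 3 - d) ^ 8 +
      21678529257 / 104857600 * d ^ 4 * (2 / 3 - d) ^ 7 +
      40464355239 / 104857600 * d ^ 5 * (2 / 3 - d) ^ 6 +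
      12212887659 / 20971520 * d ^ 6 * (2 / 3 - d) ^ 5 +
      34878281311 / 52428800 * d ^ 7 * (2 / 3 - d) ^ 4 +
      55488279387 / 104857600 * d ^ 8 * (2 / 3 - d) ^ 3 +
      28338783309 / 104857600 * d ^ 9 * (2 / 3 - d) ^ 2 +
      4137188373 / 52428800 * d ^ 10 * (2 / 3 - d) ^ 1 +
      418238397 / 41943040 * d ^ 11 * (2 / 3 - d) ^ 0) := by
    unfold Qp aa
    ring
  have h5 : 0 ≤ d ^ 2 * (59049 / 327680 * d ^ 0 * (2 / 3 - d) ^ 11 +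
      101960127 / 26214400 * d ^ 1 * (2 / 3 - d) ^ 10 +
      2640377979 / 104857600 * d ^ 2 * (2 / 3 - d) ^ 9 +
      18303781491 / 209715200 * d ^ 3 * (2 / 3 - d) ^ 8 +
      21678529257 / 104857600 * d ^ 4 * (2 / 3 - d) ^ 7 +
      40464355239 / 104857600 * d ^ 5 * (2 / 3 - d) ^ 6 +
      12212887659 / 20971520 * d ^ 6 * (2 / 3 - d) ^ 5 +
      34878281311 / 52428800 * d ^ 7 * (2 / 3 - d) ^ 4 +
      55488279387 / 104857600 * d ^ 8 * (2 / 3 - d) ^ 3 +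
      28338783309 / 104857600 * d ^ 9 * (2 / 3 - d) ^ 2 +
      4137188373 / 52428800 * d ^ 10 * (2 / 3 - d) ^ 1 +
      418238397 / 41943040 * d ^ 11 * (2 / 3 - d) ^ 0) :=
    mul_nonneg (sq_nonneg d) hT
  have h6 : 16 * (1 - d) ≤ ((4 - Qp (aa d + (3 - aa d) * d) - 3 * Qp (aa d) - (3 - aa d) * d)
      - (1 / 30 * d ^ 2 + 12 / 25 * d ^ 3 + 1 / 5 * d ^ 4)) * (4 - d) := by
    nlinarith [key, h5]
  have h7 := (div_le_iff₀ h4).2 h6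
  linarith

lemma poly_N {d : ℝ} (h0 : 0 ≤ d) (h1 : d ≤ 3 / 10) :
    0 ≤ (1 / 30 * d ^ 2 + 12 / 25 * d ^ 3 + 1 / 5 * d ^ 4) +
      d ^ 2 / 4 * (3 / 16 * (3 - aa d) ^ 2 - 3 / 2 / (1 - d / 2) ^ 2) := by
  have hm : 0 < (1 - d / 2) ^ 2 := by
    have : 0 < 1 - d / 2 := by linarith
    positivity
  have e0 : 0 ≤ 3 / 10 - d := by linarith
  have hT : 0 ≤ 240625 / 2187 * d ^ 0 * (3 / 10 - d) ^ 6 +
      1757875 / 2916 * d ^ 1 * (3 / 10 - d) ^ 5 +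
      20696525 / 15552 * d ^ 2 * (3 / 10 - d) ^ 4 +
      420652735 / 279936 * d ^ 3 * (3 / 10 - d) ^ 3 +
      672582475 / 746496 * d ^ 4 * (3 / 10 - d) ^ 2 +
      32718875 / 124416 * d ^ 5 * (3 / 10 - d) ^ 1 +
      59788849 / 2239488 * d ^ 6 * (3 / 10 - d) ^ 0 := by
    positivity
  have key : (1 / 30 + 12 / 25 * d + 1 / 5 * d ^ 2 + 1 / 4 * (3 / 16 * (3 - aa d) ^ 2)) * (1 - d / 2) ^ 2
      - 3 / 8 = 240625 / 2187 * d ^ 0 * (3 / 10 - d) ^ 6 +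
      1757875 / 2916 * d ^ 1 * (3 / 10 - d) ^ 5 +
      20696525 / 15552 * d ^ 2 * (3 / 10 - d) ^ 4 +
      420652735 / 279936 * d ^ 3 * (3 / 10 - d) ^ 3 +
      672582475 / 746496 * d ^ 4 * (3 / 10 - d) ^ 2 +
      32718875 / 124416 * d ^ 5 * (3 / 10 - d) ^ 1 +
      59788849 / 2239488 * d ^ 6 * (3 / 10 - d) ^ 0 := by
    unfold aa
    ring
  have h5 : (1 / 30 * d ^ 2 + 12 / 25 * d ^ 3 + 1 / 5 * d ^ 4) +
      d ^ 2 / 4 * (3 / 16 * (3 - aa d) ^ 2 - 3 / 2 / (1 - d / 2) ^ 2) =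
      d ^ 2 * (((1 / 30 + 12 / 25 * d + 1 / 5 * d ^ 2 + 1 / 4 * (3 / 16 * (3 - aa d) ^ 2)) * (1 - d / 2) ^ 2
      - 3 / 8) / (1 - d / 2) ^ 2) := by
    generalize aa d = a
    generalize (1 - d / 2) ^ 2 = m at hm ⊢
    have hne : m ≠ 0 := hm.ne'
    field_simp
    ring
  rw [h5, key]
  positivity

lemma poly_F {d : ℝ} (h0 : 3 / 10 ≤ d) (h1 : d ≤ 2 / 3) :
    0 ≤ (1 / 30 * d ^ 2 + 12 / 25 * d ^ 3 + 1 / 5 * d ^ 4) - 12 / 1000 +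
      d ^ 2 / 4 * (3 / 16 * (3 - aa d) ^ 2 - 9 / 8 / (1 - d / 2) ^ 2) := by
  have hm : 0 < (1 - d / 2) ^ 2 := by
    have : 0 < 1 - d / 2 := by linarith
    positivity
  have e0 : 0 ≤ 2 / 3 - d := by linarith
  have e1 : 0 ≤ d - 3 / 10 := by linarith
  have hT : 0 ≤ 1020619626867 / 219503494144 * (d - 3 / 10) ^ 0 * (2 / 3 - d) ^ 8 +
      10936546854165 / 109751747072 * (d - 3 / 10) ^ 1 * (2 / 3 - d) ^ 7 +
      120066254370675 / 219503494144 * (d - 3 / 10) ^ 2 * (2 / 3 - d) ^ 6 +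
      19263507177465 / 13718968384 * (d - 3 / 10) ^ 3 * (2 / 3 - d) ^ 5 +
      13558822924275 / 6859484192 * (d - 3 / 10) ^ 4 * (2 / 3 - d) ^ 4 +
      338653975500 / 214358881 * (d - 3 / 10) ^ 5 * (2 / 3 - d) ^ 3 +
      581527063875 / 857435524 * (d - 3 / 10) ^ 6 * (2 / 3 - d) ^ 2 +
      26653702500 / 214358881 * (d - 3 / 10) ^ 7 * (2 / 3 - d) ^ 1 +
      319050000 / 214358881 * (d - 3 / 10) ^ 8 * (2 / 3 - d) ^ 0 := by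
    positivity
  have key : (d ^ 2 * (1 / 30 + 12 / 25 * d + 1 / 5 * d ^ 2 + 1 / 4 * (3 / 16 * (3 - aa d) ^ 2)) - 12 / 1000)
      * (1 - d / 2) ^ 2 - 9 / 32 * d ^ 2 = 1020619626867 / 219503494144 * (d - 3 / 10) ^ 0 * (2 / 3 - d) ^ 8 +
      10936546854165 / 109751747072 * (d - 3 / 10) ^ 1 * (2 / 3 - d) ^ 7 +
      120066254370675 / 219503494144 * (d - 3 / 10) ^ 2 * (2 / 3 - d) ^ 6 +
      19263507177465 / 13718968384 * (d - 3 / 10) ^ 3 * (2 / 3 - d) ^ 5 +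
      13558822924275 / 6859484192 * (d - 3 / 10) ^ 4 * (2 / 3 - d) ^ 4 +
      338653975500 / 214358881 * (d - 3 / 10) ^ 5 * (2 / 3 - d) ^ 3 +
      581527063875 / 857435524 * (d - 3 / 10) ^ 6 * (2 / 3 - d) ^ 2 +
      26653702500 / 214358881 * (d - 3 / 10) ^ 7 * (2 / 3 - d) ^ 1 +
      319050000 / 214358881 * (d - 3 / 10) ^ 8 * (2 / 3 - d) ^ 0 := by
    unfold aa
    ring
  have h5 : (1 / 30 * d ^ 2 + 12 / 25 * d ^ 3 + 1 / 5 * d ^ 4) - 12 / 1000 +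
      d ^ 2 / 4 * (3 / 16 * (3 - aa d) ^ 2 - 9 / 8 / (1 - d / 2) ^ 2) =
      ((d ^ 2 * (1 / 30 + 12 / 25 * d + 1 / 5 * d ^ 2 + 1 / 4 * (3 / 16 * (3 - aa d) ^ 2)) - 12 / 1000)
      * (1 - d / 2) ^ 2 - 9 / 32 * d ^ 2) / (1 - d / 2) ^ 2 := by
    generalize aa d = a
    generalize (1 - d / 2) ^ 2 = m at hm ⊢
    have hne : m ≠ 0 := hm.ne'
    field_simp
    ring
  rw [h5, key]
  positivity

lemma poly_F2 {d : ℝ} (h0 : 3 / 10 ≤ d) :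
    0 ≤ (1 / 30 * d ^ 2 + 12 / 25 * d ^ 3 + 1 / 5 * d ^ 4) - 12 / 1000 := by
  have a2 : (3 / 10 : ℝ) ^ 2 ≤ d ^ 2 := pow_le_pow_left₀ (by norm_num) h0 2
  have a3 : (3 / 10 : ℝ) ^ 3 ≤ d ^ 3 := pow_le_pow_left₀ (by norm_num) h0 3
  have a4 : (3 / 10 : ℝ) ^ 4 ≤ d ^ 4 := pow_le_pow_left₀ (by norm_num) h0 4
  norm_num at a2 a3 a4
  linarith

/-- the quadratic form step -/
lemma six {x e1 e2 e3 d g κ : ℝ} (h1 : 0 ≤ e1) (h2 : 0 ≤ e2) (h3 : 0 ≤ e3)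
    (k1 : e1 ≤ x) (k2 : e2 ≤ x) (k3 : e3 ≤ x) (hd : x + e1 + e2 + e3 = d) (hd2 : d ≤ 2 / 3)
    (hg : 0 ≤ g) (hκ : 0 ≤ κ) :
    min 0 (d ^ 2 / 4 * (g - κ / (1 - d / 2) ^ 2)) ≤
      g * (x * e1 + x * e2 + x * e3 + e1 * e2 + e1 * e3 + e2 * e3) -
        κ * ((e1 ^ 2 + e2 ^ 2 + e3 ^ 2) / (1 - x) ^ 2) := by
  have hx0 : 0 ≤ x := h1.trans k1
  obtain ⟨y, hy⟩ : ∃ y, y = e1 + e2 + e3 := ⟨_, rfl⟩
  obtain ⟨s, hs⟩ : ∃ s, s = e1 ^ 2 + e2 ^ 2 + e3 ^ 2 := ⟨_, rfl⟩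
  have hy0 : 0 ≤ y := by rw [hy]; positivity
  have hs0 : 0 ≤ s := by rw [hs]; positivity
  have hxy : x + y = d := by rw [hy]; linarith
  have hd0 : 0 ≤ d := by linarith
  have hsy : s ≤ y ^ 2 := by
    rw [hs, hy]; nlinarith [mul_nonneg h1 h2, mul_nonneg h1 h3, mul_nonneg h2 h3]
  have hsx : s ≤ x * y := by
    rw [hs, hy]; nlinarith [mul_nonneg h1 (sub_nonneg.2 k1), mul_nonneg h2 (sub_nonneg.2 k2), mul_nonneg h3 (sub_nonneg.2 k3)]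
  have hP : x * e1 + x * e2 + x * e3 + e1 * e2 + e1 * e3 + e2 * e3 = x * y + (y ^ 2 - s) / 2 := by
    rw [hs, hy]; ring
  rw [hP, ← hs]
  have hx1 : 0 < 1 - x := by linarith
  have hm : 0 < 1 - d / 2 := by linarith
  have hxx : 0 < (1 - x) ^ 2 := by positivity
  have hmm : 0 < (1 - d / 2) ^ 2 := by positivity
  rcases le_total (d / 2) x with hc | hc
  · -- `x ≥ d/2`
    have hyd : y ≤ d / 2 := by linarith
    have f1 : y / (1 - x) ^ 2 ≤ (d / 2) / (1 - d / 2) ^ 2 := by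
      rw [div_le_div_iff₀ hxx hmm]
      obtain ⟨u, hu⟩ : ∃ u, u = d / 2 - y := ⟨_, rfl⟩
      have hu0 : 0 ≤ u := by linarith
      have hy' : y = d / 2 - u := by linarith
      have hx' : x = d / 2 + u := by linarith
      have hud : u ≤ d / 2 := by linarith
      rw [hy', hx']
      have : d / 2 * (1 - (d / 2 + u)) ^ 2 - (d / 2 - u) * (1 - d / 2) ^ 2 =
        u * ((1 - d / 2) ^ 2 - d * (1 - d / 2)) + d / 2 * u ^ 2 := by ring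
      have h8 : 0 ≤ (1 - d / 2) ^ 2 - d * (1 - d / 2) := by nlinarith
      have h9 := mul_nonneg hu0 h8
      have h10 : 0 ≤ d / 2 * u ^ 2 := by positivity
      linarith
    have f2 : κ * (s / (1 - x) ^ 2) ≤ y * (κ * ((d / 2) / (1 - d / 2) ^ 2)) := by
      have : s / (1 - x) ^ 2 ≤ y * (y / (1 - x) ^ 2) := by
        rw [← mul_div_assoc]
        refine div_le_div_of_nonneg_right ?_ hxx.le
        rw [← sq]; exact hsy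
      calc κ * (s / (1 - x) ^ 2) ≤ κ * (y * (y / (1 - x) ^ 2)) := mul_le_mul_of_nonneg_left this hκ
        _ ≤ κ * (y * ((d / 2) / (1 - d / 2) ^ 2)) := by
          refine mul_le_mul_of_nonneg_left (mul_le_mul_of_nonneg_left f1 hy0) hκ
        _ = _ := by ring
    obtain ⟨A, hA⟩ : ∃ A, A = κ * ((d / 2) / (1 - d / 2) ^ 2) := ⟨_, rfl⟩
    have hA0 : 0 ≤ A := by rw [hA]; positivity
    have f3 : d ^ 2 / 4 * (g - κ / (1 - d / 2) ^ 2) = d / 2 * (g * (d / 2) - A) := by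
      rw [hA]; ring
    rw [f3]
    rw [← hA] at f2
    have f4 : y * (g * x - A) ≤ g * (x * y + (y ^ 2 - s) / 2) - κ * (s / (1 - x) ^ 2) := by
      have : 0 ≤ g * ((y ^ 2 - s) / 2) := mul_nonneg hg (by linarith)
      nlinarith
    refine le_trans ?_ f4
    have f5 : g * (d / 2) ≤ g * x := mul_le_mul_of_nonneg_left hc hg
    rcases le_total A (g * (d / 2)) with h | h
    · exact (min_le_left _ _).trans (mul_nonneg hy0 (by linarith))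
    · refine (min_le_right _ _).trans ?_
      calc d / 2 * (g * (d / 2) - A) ≤ y * (g * (d / 2) - A) := by nlinarith
        _ ≤ y * (g * x - A) := mul_le_mul_of_nonneg_left (by linarith) hy0
  · -- `x ≤ d/2`
    refine (min_le_right _ _).trans ?_
    obtain ⟨R, hR⟩ : ∃ R, R = κ / (1 - d / 2) ^ 2 := ⟨_, rfl⟩
    have hR0 : 0 ≤ R := by rw [hR]; positivity
    rw [← hR]
    have f1 : κ * (s / (1 - x) ^ 2) ≤ R * s := by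
      rw [hR, div_mul_eq_mul_div, ← mul_div_assoc]
      refine div_le_div_of_nonneg_left (by positivity) hmm ?_
      exact pow_le_pow_left₀ hm.le (by linarith) 2
    have f2 : R * s ≤ R * (x * y) := mul_le_mul_of_nonneg_left hsx hR0
    have f3 : g * ((x * y + y ^ 2) / 2) ≤ g * (x * y + (y ^ 2 - s) / 2) :=
      mul_le_mul_of_nonneg_left (by linarith) hg
    obtain ⟨u, hu⟩ : ∃ u, u = d / 2 - x := ⟨_, rfl⟩
    have hu0 : 0 ≤ u := by linarith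
    have hy' : y = d / 2 + u := by linarith
    have hx' : x = d / 2 - u := by linarith
    have f4 : g * ((x * y + y ^ 2) / 2) - R * (x * y) - d ^ 2 / 4 * (g - R) =
        u * (d / 2) * g + R * u ^ 2 := by
      rw [hy', hx']; ring
    have f5 : 0 ≤ u * (d / 2) * g + R * u ^ 2 := by positivity
    linarith

open Helper73.M3

section data
variable {ε D E : Fin 4 → ℝ} {B : Fin 4 → Fin 4 → ℝ} {δ : ℝ}

lemma add_le (hd : Data ε D E B δ) {i j : Fin 4} (h : i ≠ j) : ε i + ε j ≤ δ := by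
  rw [← hd.sumε]
  exact Finset.add_le_sum (fun k _ => hd.ε0 k) (Finset.mem_univ i) (Finset.mem_univ j) h

lemma le_delta (hd : Data ε D E B δ) (i : Fin 4) : ε i ≤ δ := by
  rw [← hd.sumε]
  exact Finset.single_le_sum (fun k _ => hd.ε0 k) (Finset.mem_univ i)

lemma B_le (hd : Data ε D E B δ) {i j : Fin 4} (h : i ≠ j) : B i j ≤ ε j := by
  have h1 := Finset.add_le_sum (s := Finset.univ) (f := fun k => B k j) (fun k _ => hd.B0 k j)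
    (Finset.mem_univ i) (Finset.mem_univ j) h
  have h2 : B i j + B j j ≤ 1 := by
    have := hd.Bcol j
    linarith
  have h3 := hd.Bd j
  linarith

lemma om_le (hd : Data ε D E B δ) (hδ : δ ≤ 2 / 3) {i j : Fin 4} (h : i < j) :
    B i j / (1 - ε i) ≤ 1 / 2 := by
  have h1 := add_le hd h.ne
  have h2 := B_le hd h.ne
  have h3 := hd.sort i j h.le
  have h0 := hd.ε0 j
  have h4 : 0 < 1 - ε i := by linarith
  rw [div_le_iff₀ h4]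
  linarith

/-- the bound for one index -/
lemma key (hd : Data ε D E B δ) (hδ : δ ≤ 2 / 3) {κ κ0 : ℝ} (hκ : 9 / 8 ≤ κ) (hκ0 : 0 ≤ κ0)
    (hn : ∀ D w : ℝ, 0 ≤ D → D ≤ w → w ≤ 1 / 2 →
      Pp D ≤ (1 - D) ^ 4 + (1 - w) ^ 4 * D - 9 / 8 * (w - D) ^ 2 + (κ * w ^ 2 + κ0))
    (hf : ∀ D w : ℝ, 0 ≤ D → D ≤ 1 → 0 ≤ w → D ≤ 3 / 2 * w →
      Pp D ≤ (1 - D) ^ 4 + (1 - D) ^ 4 * D + (κ * w ^ 2 + κ0)) (i : Fin 4) {b : ℝ} (hb : 0 ≤ b)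
    (hb2 : b ≤ 12 / 5) :
    1 - Qp b ≤ E i + (3 - b) * D i + κ * ∑ j ∈ Finset.Ioi i, (B i j / (1 - ε i)) ^ 2 + κ0 := by
  have hsum0 : 0 ≤ ∑ j ∈ Finset.Ioi i, (B i j / (1 - ε i)) ^ 2 := Finset.sum_nonneg fun j _ => sq_nonneg _
  have hκ' : 0 ≤ κ := by linarith
  have hE0 := hd.E0 i
  have hD0 := hd.D0 i
  have hε1 : 0 < 1 - ε i := by have := le_delta hd i; linarith
  rcases le_or_gt 1 (D i) with h1 | h1
  · have a1 : 3 - b ≤ (3 - b) * D i := by nlinarith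
    have a2 : 1 - Qp b ≤ 3 - b := by
      unfold Qp
      have : 0 ≤ b ^ 3 / 512 + b ^ 4 / 800 := by positivity
      nlinarith
    have a3 := mul_nonneg hκ' hsum0
    linarith
  · have hQ := Q_ineq hD0 h1.le hb hb2
    suffices h : Pp (D i) ≤ E i + κ * ∑ j ∈ Finset.Ioi i, (B i j / (1 - ε i)) ^ 2 + κ0 by linarith
    by_cases hA : ∀ j, i < j → B i j ≤ 2 / 3 * D i * (1 - ε i)
    · have a1 := hd.E1 i h1 hA
      have a2 := aux_P hD0 h1.le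
      have a3 := mul_nonneg hκ' hsum0
      linarith
    · push Not at hA
      obtain ⟨j0, hj0, hj0'⟩ := hA
      have hne : (Finset.Ioi i).Nonempty := ⟨j0, Finset.mem_Ioi.2 hj0⟩
      obtain ⟨j1, hj1, hmax⟩ := Finset.exists_max_image (Finset.Ioi i) (fun j => B i j / (1 - ε i)) hne
      have hij1 : i < j1 := Finset.mem_Ioi.1 hj1
      obtain ⟨w, hw⟩ : ∃ w, w = B i j1 / (1 - ε i) := ⟨_, rfl⟩
      have hw0 : 0 ≤ w := by rw [hw]; exact div_nonneg (hd.B0 _ _) hε1.le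
      have hw1 : w ≤ 1 / 2 := by rw [hw]; exact om_le hd hδ hij1
      have hle : ∀ j, i < j → B i j / (1 - ε i) ≤ w := fun j hj => by
        rw [hw]; exact hmax j (Finset.mem_Ioi.2 hj)
      have hDw : 2 / 3 * D i < w := by
        have a1 := hle j0 hj0
        have a2 : 2 / 3 * D i < B i j0 / (1 - ε i) := by rw [lt_div_iff₀ hε1]; exact hj0'
        linarith
      have hc1 : ∀ j, i < j → B i j ≤ max w (D i) * (1 - ε i) := fun j hj => by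
        have a1 := (div_le_iff₀ hε1).1 (hle j hj)
        exact a1.trans (mul_le_mul_of_nonneg_right (le_max_left _ _) hε1.le)
      have hc2 : ∀ j, i < j → B i j ≤ (1 + D i) / 2 * (1 - ε i) := fun j hj => by
        have a1 := (div_le_iff₀ hε1).1 (hle j hj)
        exact a1.trans (mul_le_mul_of_nonneg_right (by linarith) hε1.le)
      have hwlt : max w (D i) < 1 := max_lt (by linarith) h1
      have a1 := hd.E2 i (max w (D i)) (le_max_right _ _) hwlt hc1 hc2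
      -- the sum of the overlaps
      have a2 : ∑ j ∈ Finset.Ioi i, (max (B i j / (1 - ε i) - D i) 0) ^ 2 ≤
          (max (w - D i) 0) ^ 2 - w ^ 2 + ∑ j ∈ Finset.Ioi i, (B i j / (1 - ε i)) ^ 2 := by
        rw [← Finset.add_sum_erase _ _ hj1, ← Finset.add_sum_erase _ (fun j => (B i j / (1 - ε i)) ^ 2) hj1]
        simp only [← hw]
        have : ∑ j ∈ (Finset.Ioi i).erase j1, (max (B i j / (1 - ε i) - D i) 0) ^ 2 ≤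
            ∑ j ∈ (Finset.Ioi i).erase j1, (B i j / (1 - ε i)) ^ 2 := by
          refine Finset.sum_le_sum fun j _ => ?_
          have b0 : 0 ≤ B i j / (1 - ε i) := div_nonneg (hd.B0 _ _) hε1.le
          exact pow_le_pow_left₀ (le_max_right _ _) (max_le (by linarith) b0) 2
        linarith
      have a3 : w ^ 2 ≤ ∑ j ∈ Finset.Ioi i, (B i j / (1 - ε i)) ^ 2 := by
        rw [hw]
        exact Finset.single_le_sum (f := fun j => (B i j / (1 - ε i)) ^ 2) (fun j _ => sq_nonneg _) hj1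
      have a4 : 9 / 8 * (∑ j ∈ Finset.Ioi i, (B i j / (1 - ε i)) ^ 2 - w ^ 2) ≤
          κ * (∑ j ∈ Finset.Ioi i, (B i j / (1 - ε i)) ^ 2 - w ^ 2) :=
        mul_le_mul_of_nonneg_right hκ (by linarith)
      rcases le_total (D i) w with h | h
      · have a5 := hn (D i) w hD0 h hw1
        rw [max_eq_left h] at a1
        rw [max_eq_left (by linarith : 0 ≤ w - D i)] at a2
        linarith
      · have a5 := hf (D i) w hD0 h1.le hw0 (by linarith)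
        rw [max_eq_right h] at a1
        rw [max_eq_right (by linarith : w - D i ≤ 0)] at a2
        linarith

lemma sum_sq (hd : Data ε D E B δ) :
    ∑ i, ∑ j ∈ Finset.Ioi i, (B i j / (1 - ε i)) ^ 2 ≤
      ((ε 1) ^ 2 + (ε 2) ^ 2 + (ε 3) ^ 2) / (1 - ε 0) ^ 2 := by
  have h0 : 0 < 1 - ε 0 := by have := le_delta hd 0; have := hd.δ1; linarith
  have t : ∀ i j, (B i j / (1 - ε i)) ^ 2 ≤ (B i j) ^ 2 / (1 - ε 0) ^ 2 := fun i j => by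
    rw [div_pow]
    have a0 := hd.sort 0 i (Fin.zero_le _)
    refine div_le_div_of_nonneg_left (sq_nonneg _) (by positivity) ?_
    exact pow_le_pow_left₀ h0.le (by linarith) 2
  have e : ∑ i, ∑ j ∈ Finset.Ioi i, (B i j / (1 - ε i)) ^ 2 ≤
      ∑ i, ∑ j ∈ Finset.Ioi i, (B i j) ^ 2 / (1 - ε 0) ^ 2 :=
    Finset.sum_le_sum fun i _ => Finset.sum_le_sum fun j _ => t i j
  refine e.trans ?_
  have i0 : Finset.Ioi (0 : Fin 4) = {1, 2, 3} := by decide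
  have i1 : Finset.Ioi (1 : Fin 4) = {2, 3} := by decide
  have i2 : Finset.Ioi (2 : Fin 4) = {3} := by decide
  have i3 : Finset.Ioi (3 : Fin 4) = ∅ := by decide
  rw [Fin.sum_univ_four, i0, i1, i2, i3]
  rw [Finset.sum_insert (by decide), Finset.sum_insert (by decide), Finset.sum_singleton,
    Finset.sum_insert (by decide), Finset.sum_singleton, Finset.sum_singleton, Finset.sum_empty]
  have c1 := hd.Bcol 1
  have c2 := hd.Bcol 2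
  have c3 := hd.Bcol 3
  rw [Fin.sum_univ_four] at c1 c2 c3
  have d1 := hd.Bd 1
  have d2 := hd.Bd 2
  have d3 := hd.Bd 3
  have p := hd.B0
  have q1 : (B 0 1) ^ 2 ≤ (ε 1) ^ 2 := pow_le_pow_left₀ (p 0 1) (by linarith [p 2 1, p 3 1]) 2
  have q2 : (B 0 2) ^ 2 + (B 1 2) ^ 2 ≤ (ε 2) ^ 2 := by
    have : (B 0 2 + B 1 2) ^ 2 ≤ (ε 2) ^ 2 :=
      pow_le_pow_left₀ (add_nonneg (p 0 2) (p 1 2)) (by linarith [p 3 2]) 2
    nlinarith [mul_nonneg (p 0 2) (p 1 2)]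
  have q3 : (B 0 3) ^ 2 + (B 1 3) ^ 2 + (B 2 3) ^ 2 ≤ (ε 3) ^ 2 := by
    have : (B 0 3 + B 1 3 + B 2 3) ^ 2 ≤ (ε 3) ^ 2 :=
      pow_le_pow_left₀ (add_nonneg (add_nonneg (p 0 3) (p 1 3)) (p 2 3)) (by linarith) 2
    nlinarith [mul_nonneg (p 0 3) (p 1 3), mul_nonneg (p 0 3) (p 2 3), mul_nonneg (p 1 3) (p 2 3)]
  have : ((B 0 1) ^ 2 / (1 - ε 0) ^ 2 + ((B 0 2) ^ 2 / (1 - ε 0) ^ 2 + (B 0 3) ^ 2 / (1 - ε 0) ^ 2) +
      ((B 1 2) ^ 2 / (1 - ε 0) ^ 2 + (B 1 3) ^ 2 / (1 - ε 0) ^ 2) +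
      (B 2 3) ^ 2 / (1 - ε 0) ^ 2 + 0) =
      ((B 0 1) ^ 2 + ((B 0 2) ^ 2 + (B 1 2) ^ 2) + ((B 0 3) ^ 2 + (B 1 3) ^ 2 + (B 2 3) ^ 2)) / (1 - ε 0) ^ 2 := by
    ring
  rw [this]
  refine div_le_div_of_nonneg_right ?_ (by positivity)
  linarith

/-- sum of the `Q` terms -/
lemma sum_Q {x e1 e2 e3 d a l : ℝ} (h0 : 0 ≤ x) (h1 : 0 ≤ e1) (h2 : 0 ≤ e2) (h3 : 0 ≤ e3)
    (hd : x + e1 + e2 + e3 = d) (ha : 0 ≤ a) (hl : 0 ≤ l) :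
    Qp (a + l * x) + Qp (a + l * e1) + Qp (a + l * e2) + Qp (a + l * e3) ≤
      Qp (a + l * d) + 3 * Qp a -
        3 / 16 * l ^ 2 * (x * e1 + x * e2 + x * e3 + e1 * e2 + e1 * e3 + e2 * e3) := by
  subst hd
  have g2 : x ^ 2 + e1 ^ 2 + e2 ^ 2 + e3 ^ 2 ≤ (x + e1 + e2 + e3) ^ 2 := by
    have : 0 ≤ 2 * (x * e1 + x * e2 + x * e3 + e1 * e2 + e1 * e3 + e2 * e3) := by positivity
    nlinarith
  have g3 : x ^ 3 + e1 ^ 3 + e2 ^ 3 + e3 ^ 3 ≤ (x + e1 + e2 + e3) ^ 3 := by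
    have e' : 0 ≤ 3 * x ^ 2 * (e1 + e2 + e3) + 3 * e1 ^ 2 * (x + e2 + e3) + 3 * e2 ^ 2 * (x + e1 + e3) +
      3 * e3 ^ 2 * (x + e1 + e2) + 6 * (x * e1 * e2 + x * e1 * e3 + x * e2 * e3 + e1 * e2 * e3) := by positivity
    nlinarith
  have g4 : x ^ 4 + e1 ^ 4 + e2 ^ 4 + e3 ^ 4 ≤ (x + e1 + e2 + e3) ^ 4 := by
    have u1 : x ^ 4 + e1 ^ 4 + e2 ^ 4 + e3 ^ 4 ≤ (x ^ 2 + e1 ^ 2 + e2 ^ 2 + e3 ^ 2) ^ 2 := by
      have : 0 ≤ 2 * (x ^ 2 * e1 ^ 2 + x ^ 2 * e2 ^ 2 + x ^ 2 * e3 ^ 2 + e1 ^ 2 * e2 ^ 2 + e1 ^ 2 * e3 ^ 2 + e2 ^ 2 * e3 ^ 2) := by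
        positivity
      nlinarith
    have u2 : (x ^ 2 + e1 ^ 2 + e2 ^ 2 + e3 ^ 2) ^ 2 ≤ ((x + e1 + e2 + e3) ^ 2) ^ 2 :=
      pow_le_pow_left₀ (by positivity) g2 2
    calc _ ≤ _ := u1
      _ ≤ _ := u2
      _ = _ := by ring
  have key : Qp (a + l * (x + e1 + e2 + e3)) + 3 * Qp a -
        3 / 16 * l ^ 2 * (x * e1 + x * e2 + x * e3 + e1 * e2 + e1 * e3 + e2 * e3) -
      (Qp (a + l * x) + Qp (a + l * e1) + Qp (a + l * e2) + Qp (a + l * e3)) =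
      (1 / 512) * (3 * a * l ^ 2 * ((x + e1 + e2 + e3) ^ 2 - (x ^ 2 + e1 ^ 2 + e2 ^ 2 + e3 ^ 2)) +
        l ^ 3 * ((x + e1 + e2 + e3) ^ 3 - (x ^ 3 + e1 ^ 3 + e2 ^ 3 + e3 ^ 3))) +
      (1 / 800) * (6 * a ^ 2 * l ^ 2 * ((x + e1 + e2 + e3) ^ 2 - (x ^ 2 + e1 ^ 2 + e2 ^ 2 + e3 ^ 2)) +
        4 * a * l ^ 3 * ((x + e1 + e2 + e3) ^ 3 - (x ^ 3 + e1 ^ 3 + e2 ^ 3 + e3 ^ 3)) +
        l ^ 4 * ((x + e1 + e2 + e3) ^ 4 - (x ^ 4 + e1 ^ 4 + e2 ^ 4 + e3 ^ 4))) := by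
    unfold Qp
    ring
  have G2 : 0 ≤ (x + e1 + e2 + e3) ^ 2 - (x ^ 2 + e1 ^ 2 + e2 ^ 2 + e3 ^ 2) := by linarith
  have G3 : 0 ≤ (x + e1 + e2 + e3) ^ 3 - (x ^ 3 + e1 ^ 3 + e2 ^ 3 + e3 ^ 3) := by linarith
  have G4 : 0 ≤ (x + e1 + e2 + e3) ^ 4 - (x ^ 4 + e1 ^ 4 + e2 ^ 4 + e3 ^ 4) := by linarith
  have : 0 ≤ (1 / 512) * (3 * a * l ^ 2 * ((x + e1 + e2 + e3) ^ 2 - (x ^ 2 + e1 ^ 2 + e2 ^ 2 + e3 ^ 2)) +
        l ^ 3 * ((x + e1 + e2 + e3) ^ 3 - (x ^ 3 + e1 ^ 3 + e2 ^ 3 + e3 ^ 3))) +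
      (1 / 800) * (6 * a ^ 2 * l ^ 2 * ((x + e1 + e2 + e3) ^ 2 - (x ^ 2 + e1 ^ 2 + e2 ^ 2 + e3 ^ 2)) +
        4 * a * l ^ 3 * ((x + e1 + e2 + e3) ^ 3 - (x ^ 3 + e1 ^ 3 + e2 ^ 3 + e3 ^ 3)) +
        l ^ 4 * ((x + e1 + e2 + e3) ^ 4 - (x ^ 4 + e1 ^ 4 + e2 ^ 4 + e3 ^ 4))) := by positivity
  linarith

/-- the inequality with parameters `κ`, `κ0` -/
lemma main (hd : Data ε D E B δ) (hδ : δ ≤ 2 / 3) {κ κ0 : ℝ} (hκ : 9 / 8 ≤ κ) (hκ0 : 0 ≤ κ0)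
    (hn : ∀ D w : ℝ, 0 ≤ D → D ≤ w → w ≤ 1 / 2 →
      Pp D ≤ (1 - D) ^ 4 + (1 - w) ^ 4 * D - 9 / 8 * (w - D) ^ 2 + (κ * w ^ 2 + κ0))
    (hf : ∀ D w : ℝ, 0 ≤ D → D ≤ 1 → 0 ≤ w → D ≤ 3 / 2 * w →
      Pp D ≤ (1 - D) ^ 4 + (1 - D) ^ 4 * D + (κ * w ^ 2 + κ0)) :
    16 * (1 - δ) / (4 - δ) + (1 / 30 * δ ^ 2 + 12 / 25 * δ ^ 3 + 1 / 5 * δ ^ 4) +
      min 0 (δ ^ 2 / 4 * (3 / 16 * (3 - aa δ) ^ 2 - κ / (1 - δ / 2) ^ 2)) - 4 * κ0 ≤ ∑ i, E i := by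
  have hδ0 : 0 ≤ δ := by rw [← hd.sumε]; exact Finset.sum_nonneg fun i _ => hd.ε0 i
  have ha0 : 0 ≤ aa δ := by unfold aa; positivity
  have ha1 : aa δ ≤ 5 / 6 := by unfold aa; nlinarith
  have hl0 : 0 ≤ 3 - aa δ := by linarith
  have hb : ∀ i, 1 - Qp (aa δ + (3 - aa δ) * ε i) ≤ E i + (3 - aa δ) * ((1 - ε i) * D i) +
      κ * ∑ j ∈ Finset.Ioi i, (B i j / (1 - ε i)) ^ 2 + κ0 := fun i => by
    have b1 : ε i ≤ 2 / 3 := (le_delta hd i).trans hδ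
    have b0 := hd.ε0 i
    have := key hd hδ hκ hκ0 hn hf i (b := aa δ + (3 - aa δ) * ε i) (by positivity) (by nlinarith)
    have e : (3 - (aa δ + (3 - aa δ) * ε i)) * D i = (3 - aa δ) * ((1 - ε i) * D i) := by ring
    rw [e] at this
    exact this
  have h1 : ∑ i, (1 - Qp (aa δ + (3 - aa δ) * ε i)) ≤ ∑ i, (E i + (3 - aa δ) * ((1 - ε i) * D i) +
      κ * ∑ j ∈ Finset.Ioi i, (B i j / (1 - ε i)) ^ 2 + κ0) := Finset.sum_le_sum fun i _ => hb i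
  have h2 : ∑ i, (E i + (3 - aa δ) * ((1 - ε i) * D i) +
      κ * ∑ j ∈ Finset.Ioi i, (B i j / (1 - ε i)) ^ 2 + κ0) =
      ∑ i, E i + (3 - aa δ) * δ + κ * ∑ i, ∑ j ∈ Finset.Ioi i, (B i j / (1 - ε i)) ^ 2 + 4 * κ0 := by
    rw [Finset.sum_add_distrib, Finset.sum_add_distrib, Finset.sum_add_distrib, ← Finset.mul_sum,
      ← Finset.mul_sum, hd.sumD, Finset.sum_const, Finset.card_univ, Fintype.card_fin]
    simp
  rw [h2] at h1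
  have h3 : ∑ i, (1 - Qp (aa δ + (3 - aa δ) * ε i)) =
      4 - (Qp (aa δ + (3 - aa δ) * ε 0) + Qp (aa δ + (3 - aa δ) * ε 1) +
        Qp (aa δ + (3 - aa δ) * ε 2) + Qp (aa δ + (3 - aa δ) * ε 3)) := by
    rw [Fin.sum_univ_four]; ring
  rw [h3] at h1
  have hs : ε 0 + ε 1 + ε 2 + ε 3 = δ := by rw [← Fin.sum_univ_four]; exact hd.sumε
  have h4 := sum_Q (a := aa δ) (l := 3 - aa δ) (hd.ε0 0) (hd.ε0 1) (hd.ε0 2) (hd.ε0 3) hs ha0 hl0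
  have h5 := poly_T hδ0 hδ
  have h6 := six (g := 3 / 16 * (3 - aa δ) ^ 2) (κ := κ) (hd.ε0 1) (hd.ε0 2) (hd.ε0 3)
    (hd.sort 0 1 (by decide)) (hd.sort 0 2 (by decide)) (hd.sort 0 3 (by decide)) hs hδ (by positivity) (by linarith)
  have h7 := mul_le_mul_of_nonneg_left (sum_sq hd) (by linarith : 0 ≤ κ)
  linarith

end data

theorem part_H1 : S_H1 := by
  intro ε D E B δ hd hδ
  have hδ0 : 0 ≤ δ := by rw [← hd.sumε]; exact Finset.sum_nonneg fun i _ => hd.ε0 i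
  rcases le_total δ (3 / 10) with h | h
  · have h1 := main hd hδ (κ := 3 / 2) (κ0 := 0) (by norm_num) le_rfl
      (fun D w h0 h1 h2 => by have := near_one h0 h1 h2; linarith)
      (fun D w h0 h1 h2 h3 => by
        have a1 := far_one h0 h1
        have a2 : D ^ 2 ≤ (3 / 2 * w) ^ 2 := pow_le_pow_left₀ h0 h3 2
        have a3 : (3 / 2 * w) ^ 2 = 9 / 4 * w ^ 2 := by ring
        linarith)
    have h2 := poly_N hδ0 h
    have h3 : 0 ≤ 1 / 30 * δ ^ 2 + 12 / 25 * δ ^ 3 + 1 / 5 * δ ^ 4 := by positivity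
    rcases min_choice 0 (δ ^ 2 / 4 * (3 / 16 * (3 - aa δ) ^ 2 - 3 / 2 / (1 - δ / 2) ^ 2)) with h4 | h4
    · rw [h4] at h1; linarith
    · rw [h4] at h1; linarith
  · have h1 := main hd hδ (κ := 9 / 8) (κ0 := 3 / 1000) le_rfl (by norm_num)
      (fun D w h0 h1 h2 => near_two h0 h1 h2)
      (fun D w h0 h1 h2 h3 => by
        have a1 := far_two h0 h1
        have a2 : D ^ 2 ≤ (3 / 2 * w) ^ 2 := pow_le_pow_left₀ h0 h3 2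
        have a3 : (3 / 2 * w) ^ 2 = 9 / 4 * w ^ 2 := by ring
        linarith)
    have h2 := poly_F h hδ
    have h3 := poly_F2 h
    rcases min_choice 0 (δ ^ 2 / 4 * (3 / 16 * (3 - aa δ) ^ 2 - 9 / 8 / (1 - δ / 2) ^ 2)) with h4 | h4
    · rw [h4] at h1; linarith
    · rw [h4] at h1; linarith

end Helper59.M3H1
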